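import Pool.Agent.MP_e34318_lc.Cc.Force

open Pool.Agent.MP_c6cf52_lc Pool.Agent.MP_e34318_lc Cardinal

theorem Pool.Agent.Results.MP_e34318_lc.CcArrow.result (l : Cardinal.{0})
    (h₁ : ℵ₀ < l.ord.cof) (h₂ : 2 ^ l.ord.cof < l) (P : Type) [Preorder P] [OrderTop P]
    (cc : ∀ A : Set P, (A.Pairwise fun p q => ¬ ∃ r, r ≤ p ∧ r ≤ q) → #A < l.ord.cof) :
    ∃ φ : Fml,
      (∀ (M : Type 1) (E : M → M → Prop) (w : ℕ → M), Sat E φ w ↔ Arrow E (w 0) (w 1)) ∧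
      ∀ w : ℕ → Name P, w 0 = chk P l.ord → w 1 = chk P (Ordinal.omega0 + 1) →
        ∀ p : P, Name.Forces φ w p :=
  Pool.Agent.MP_e34318_lc.Cc.main h₁ h₂ cc
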