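import Pool.Agent.MP_e34318_lc.Cc.Normal

open Pool.Agent.MP_e34318_lc Cardinal

theorem Pool.Agent.Results.MP_e34318_lc.NormalArrow.result (l : Cardinal.{0})
    (h₁ : ℵ₀ < l.ord.cof) (h₂ : l.ord.cof < l)
    (D : Filter l.ord.cof.ord.ToType) (hD : IsNormal D)
    (H : ∀ D' ≤ D, IsNormal D' → ∃ F ≤ D', F.NeBot ∧ CardinalInterFilter F l.ord.cof ∧
      ∃ G : Set (Set l.ord.cof.ord.ToType), #G < l ∧ F.HasBasis (· ∈ G) id)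
    (c : Ordinal.{0} → Ordinal.{0} → Bool) :
    (∃ H : Set Ordinal.{0}, H ⊆ Set.Iio l.ord ∧ Cardinal.mk H = Cardinal.lift.{1} l ∧
      ∀ α ∈ H, ∀ β ∈ H, α < β → c α β = false) ∨
    (∃ f : ℕ → Ordinal.{0}, ∃ γ : Ordinal.{0}, StrictMono f ∧ γ < l.ord ∧ (∀ n, f n < γ) ∧
      (∀ m n, m < n → c (f m) (f n) = true) ∧ ∀ n, c (f n) γ = true) :=
  Pool.Agent.MP_e34318_lc.Cc.normal_main l h₁ h₂ D hD H c
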