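import Pool.Agent.Mg.Fa078ad.Gbe3e0f

open Pool.Agent.MP_c6cf52_lc Pool.Agent.MP_e34318_lc

theorem Pool.Agent.Results.MP_e34318_lc.NotArrowModel.result :
    ∃ (M : Type 1) (E : M → M → Prop), IsZFC E ∧ ∃ w t k : M,
      IsOmega E w ∧ (∀ x, E x t ↔ E x w ∨ x = w) ∧ IsCard E k ∧ E w k ∧
      (∀ f, IsFun E f w k → ∃ b, E b k ∧ ∀ n y, App E f n y → E y b) ∧
      ¬ Arrow E k t :=
  Pool.Agent.MP_e34318_lc.main
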