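import Pool.Agent.MP_e34318_lc.Cc.Core

open Pool.Agent.MP_e34318_lc Cardinal

theorem Pool.Agent.Results.MP_e34318_lc.PrecipArrow.result (l : Cardinal.{0})
    (h₁ : ℵ₀ < l.ord.cof) (h₂ : l.ord.cof < l)
    (F : Filter l.ord.cof.ord.ToType) [F.NeBot] [CardinalInterFilter F l.ord.cof]
    (hF : F ≤ Filter.cofinite) (hp : Precipitous F)
    (G : Set (Set l.ord.cof.ord.ToType)) (hG : #G < l) (hb : F.HasBasis (· ∈ G) id)
    (c : Ordinal.{0} → Ordinal.{0} → Bool) :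
    (∃ H : Set Ordinal.{0}, H ⊆ Set.Iio l.ord ∧ Cardinal.mk H = Cardinal.lift.{1} l ∧
      ∀ α ∈ H, ∀ β ∈ H, α < β → c α β = false) ∨
    (∃ f : ℕ → Ordinal.{0}, ∃ γ : Ordinal.{0}, StrictMono f ∧ γ < l.ord ∧ (∀ n, f n < γ) ∧
      (∀ m n, m < n → c (f m) (f n) = true) ∧ ∀ n, c (f n) γ = true) :=
  Pool.Agent.MP_e34318_lc.Cc.precip_main l h₁ h₂ F hF hp G hG hb c
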